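import Mathlib
import Pool.Agent.H.MP_70096d_gt.A

set_option autoImplicit false

namespace Pool.Agent.Results.MP_70096d_gt.Literal

open Set Topology

def WellFiltered (X : Type) (t : TopologicalSpace X) : Prop :=
  @T0Space X t ∧ ∀ 𝒦 : Set (Set X), 𝒦.Nonempty → DirectedOn (· ⊇ ·) 𝒦 →
    (∀ K ∈ 𝒦, @IsCompact X t K ∧ K = ⋂₀ {U | IsOpen[t] U ∧ K ⊆ U}) →
    ∀ U, IsOpen[t] U → ⋂₀ 𝒦 ⊆ U → ∃ K ∈ 𝒦, K ⊆ U

def Dcpo (P : Type) [PartialOrder P] : Prop :=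
  ∀ d : Set P, d.Nonempty → DirectedOn (· ≤ ·) d → ∃ x, IsLUB d x

def WFPoset (P : Type) [PartialOrder P] : Prop :=
  ∃ t : TopologicalSpace P, (∀ x : P, closure[t] {x} = Iic x) ∧ WellFiltered P t

theorem wf_iff {P : Type} [PartialOrder P] (t : TopologicalSpace P)
    (h : ∀ x : P, closure[t] {x} = Iic x) : WellFiltered P t ↔ H.MP_70096d_gt.W P t := by
  have h1 : ∀ K : Set P, K = ⋂₀ {U | IsOpen U ∧ K ⊆ U} ↔ IsUpperSet K := fun K => by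
    refine ⟨fun e a b hab ha => ?_, fun hK => Subset.antisymm (fun x hx U hU => hU.2 hx)
      fun x hx => ?_⟩
    · rw [e]
      intro U hU
      obtain ⟨y, h2, rfl⟩ := mem_closure_iff.1 (h b ▸ hab : a ∈ closure {b}) U hU.1 (hU.2 ha)
      exact h2
    · by_contra h2
      exact hx (Iic x)ᶜ ⟨h x ▸ isClosed_closure.isOpen_compl, fun y hy h3 => h2 (hK h3 hy)⟩
        self_mem_Iic
  refine ⟨fun h2 𝒦 a b c C hC hm => ?_, fun h2 => ⟨?_, fun 𝒦 a b c U hU hm => ?_⟩⟩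
  · by_contra h3
    obtain ⟨K, hK, h4⟩ := h2.2 𝒦 a b (fun K hK => ⟨(c K hK).1, (h1 K).2 (c K hK).2⟩) Cᶜ
      hC.isOpen_compl fun x hx hx' => h3 ⟨x, hx', hx⟩
    obtain ⟨x, h5, h6⟩ := hm K hK
    exact h4 h5 h6
  · exact (t0Space_iff_inseparable P).2 fun x y e => Iic_injective <| by
      rw [← h, ← h]; exact inseparable_iff_closure_eq.1 e
  · by_contra h3
    obtain ⟨x, h4, h5⟩ := h2 𝒦 a b (fun K hK => ⟨(c K hK).1, (h1 K).1 (c K hK).2⟩) Uᶜ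
      hU.isClosed_compl fun K hK => inter_compl_nonempty_iff.2 fun h4 => h3 ⟨K, hK, h4⟩
    exact h4 (hm h5)

theorem scott_iff (P : Type) [PartialOrder P] :
    WellFiltered P (scott P univ) ↔ H.MP_70096d_gt.W P (scott P univ) :=
  wf_iff _ fun _ => @IsScott.closure_singleton P _ (scott P univ) _ (@IsScott.mk _ _ _ (_) rfl)

theorem result :
    ∃ (P Q : Type) (_ : PartialOrder P) (_ : PartialOrder Q), Dcpo P ∧ Dcpo Q ∧ WFPoset P ∧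
      WFPoset Q ∧ ¬ WellFiltered (P × Q) (scott (P × Q) univ) := by
  refine ⟨H.MP_70096d_gt.J, Unit, inferInstance, inferInstance, H.MP_70096d_gt.dcpo,
    fun d ⟨x, hx⟩ _ => ⟨x, IsGreatest.isLUB ⟨hx, fun _ _ => le_rfl⟩⟩,
    ⟨_, H.MP_70096d_gt.closure_eq, (wf_iff _ H.MP_70096d_gt.closure_eq).2 H.MP_70096d_gt.wtau⟩,
    ?_, fun h => H.MP_70096d_gt.notw ((scott_iff _).1 h)⟩
  have h : ∀ x : Unit, closure[⊥] {x} = Iic x := fun x =>
    Subset.antisymm (fun _ _ => mem_Iic.2 le_rfl) fun _ _ => @subset_closure _ ⊥ _ _ rfl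
  refine ⟨⊥, h, (wf_iff _ h).2 fun 𝒦 ⟨K, hK⟩ _ _ C _ hm => ?_⟩
  obtain ⟨x, -, hx⟩ := hm K hK
  exact ⟨x, hx, fun L hL => by obtain ⟨y, hy, -⟩ := hm L hL; exact hy⟩

end Pool.Agent.Results.MP_70096d_gt.Literal
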